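import Pool.Agent.Helper43.Own.SectorStrong

/-!
# Sectorial maximal operators: no uniform weak type (1,1) bound, for finite unions of arcs and
bounded functions with compact support
-/

set_option autoImplicit false

namespace Pool.Agent.Results.MP_e2b44f_an.ArcUnions

open MeasureTheory Set

/-- the sector `D(r, E) = {z : |z| ≤ r, arg z ∈ E}` -/
def sector (r : ℝ) (E : Set ℝ) : Set ℂ := {z : ℂ | ‖z‖ ≤ r ∧ Complex.arg z ∈ E}

/-- For every `C` there are a finite union `E` of open intervals of angles in `(-π, π)`, of positive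
measure, a bounded integrable function `f ≥ 0` with integral `1` vanishing outside the unit square
and `l > 0` such that the set of all `x` with `M_E f(x) > l` has measure larger than `C / l`. -/
theorem result (C : ℝ) : ∃ (S : Finset (ℝ × ℝ)) (E : Set ℝ) (f : ℂ → ℝ) (B l : ℝ),
    E = ⋃ p ∈ S, Ioo p.1 p.2 ∧ E ⊆ Ioo (-Real.pi) Real.pi ∧ 0 < volume E ∧
    Integrable f ∧ (∀ z, 0 ≤ f z ∧ f z ≤ B) ∧
    (∀ z, f z ≠ 0 → z.re ∈ Icc (0 : ℝ) 1 ∧ z.im ∈ Icc (0 : ℝ) 1) ∧ ∫ z, f z = 1 ∧ 0 < l ∧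
    ENNReal.ofReal (C / l) < volume {x : ℂ | ∃ r : ℝ, 0 < r ∧
      l < 2 / (volume.real E * r ^ 2) * ∫ y in sector r E, f (x - y)} := by
  obtain ⟨S, f, B, l, h⟩ := Pool.Agent.Helper43.Own.SectorStrong.strongForm C
  exact ⟨S, _, f, B, l, rfl, h⟩

end Pool.Agent.Results.MP_e2b44f_an.ArcUnions
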